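import Mathlib

set_option autoImplicit false

namespace Pool.Agent.MX

lemma qf1 (a p : ℝ) (ha : a ^ 2 * (9 + 8 * p ^ 2) ≤ 1) : a ^ 2 ≤ 1 / 9 := by
  nlinarith [sq_nonneg (a * p)]

lemma qf2 (a p : ℝ) (ha : a ^ 2 * (9 + 8 * p ^ 2) ≤ 1) : p ^ 2 * a ^ 2 ≤ 1 / 8 := by
  nlinarith [sq_nonneg a]

lemma qf3 (a : ℝ) (ha : a ^ 2 ≤ 1 / 9) : a ≤ 1 / 3 := by
  nlinarith

/-- bounds for `w = p(1-a²)/(1+p²a²)` -/
lemma qf_w_lower (a p E w : ℝ) (hp : 0 < p) (ha9 : a ^ 2 ≤ 1 / 9) (hE : 1 ≤ E) (hE' : E ≤ 9 / 8)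
    (hw : w = p * (1 - a ^ 2) / E) : 64 / 81 * p ≤ w := by
  have hEp : 0 < E := by linarith
  rw [hw, le_div_iff₀ hEp]
  have h1 : 64 / 81 * p * E ≤ 64 / 81 * p * (9 / 8) :=
    mul_le_mul_of_nonneg_left hE' (by positivity)
  have h2 : p * (8 / 9) ≤ p * (1 - a ^ 2) := mul_le_mul_of_nonneg_left (by linarith) hp.le
  linarith

lemma qf_w_upper (a p E w : ℝ) (hp : 0 < p) (hE : 1 ≤ E)
    (hw : w = p * (1 - a ^ 2) / E) : w ≤ p := by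
  have hEp : 0 < E := by linarith
  rw [hw, div_le_iff₀ hEp]
  have h1 : p * 1 ≤ p * E := mul_le_mul_of_nonneg_left hE hp.le
  have h2 : 0 ≤ p * a ^ 2 := by positivity
  linarith

lemma qf_bracket (a b p q c s m0 m1 : ℝ)
    (hm0 : m0 = a * (1 + p ^ 2) / (1 + p ^ 2 * a ^ 2)) (hm1 : m1 = b * (1 + q ^ 2) / (1 + q ^ 2 * b ^ 2)) :
    c * (m0 - m1) - s * m0 * m1
      = (c * (a - b) - s * (a * b) + p ^ 2 * a * (c * (1 - a * b) - s * b)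
        - q ^ 2 * b * (c * (1 - a * b) + s * a) - p ^ 2 * q ^ 2 * (a * b) * (c * (a - b) + s)) /
          ((1 + p ^ 2 * a ^ 2) * (1 + q ^ 2 * b ^ 2)) := by
  rw [hm0, hm1]
  have h1 : (1 + p ^ 2 * a ^ 2) ≠ 0 := by positivity
  have h2 : (1 + q ^ 2 * b ^ 2) ≠ 0 := by positivity
  field_simp
  ring

lemma qf_c (a b : ℝ) (hb : 0 ≤ b) (hab : b ≤ a) (ha3 : a ≤ 1 / 3) :
    64 / 81 ≤ (1 - a * b) ^ 2 + (a - b) ^ 2 ∧ (1 - a * b) ^ 2 + (a - b) ^ 2 ≤ 10 / 9 := by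
  have ha0 : 0 ≤ a := le_trans hb hab
  have h0 : 0 ≤ a * b := mul_nonneg ha0 hb
  have h9 : a * b ≤ 1 / 9 := by nlinarith
  constructor
  · have h1 : 8 / 9 ≤ 1 - a * b := by linarith
    have h2 : (8 / 9) ^ 2 ≤ (1 - a * b) ^ 2 := by gcongr
    nlinarith [sq_nonneg (a - b)]
  · have h1 : (1 - a * b) ^ 2 ≤ 1 := by nlinarith
    have h2 : (a - b) ^ 2 ≤ (1 / 3) ^ 2 := by
      have : a - b ≤ 1 / 3 := by linarith
      have h0 : 0 ≤ a - b := by linarith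
      gcongr
    linarith

lemma qf_s (a b : ℝ) (hb : 0 ≤ b) (hab : b ≤ a) (ha3 : a ≤ 1 / 3) :
    0 ≤ 2 * (a - b) * (1 - a * b) ∧ 2 * (a - b) * (1 - a * b) ≤ 2 * (a - b) ∧
      2 * (a - b) * (1 - a * b) * b ≤ a ^ 2 / 2 := by
  have ha0 : 0 ≤ a := le_trans hb hab
  have h0 : 0 ≤ a * b := mul_nonneg ha0 hb
  have h9 : a * b ≤ 1 / 9 := by nlinarith
  have h1 : 0 ≤ a - b := by linarith
  have h2 : 2 * (a - b) * (1 - a * b) ≤ 2 * (a - b) := by nlinarith [mul_nonneg h1 h0]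
  refine ⟨by apply mul_nonneg <;> linarith, h2, ?_⟩
  have h3 : 2 * (a - b) * (1 - a * b) * b ≤ 2 * (a - b) * b := mul_le_mul_of_nonneg_right h2 hb
  nlinarith [sq_nonneg (a - 2 * b)]

/-- bound of the first bracket -/
lemma qf_br (a b p q c s m0 m1 : ℝ) (hb : 0 ≤ b) (hab : b ≤ a) (ha3 : a ≤ 1 / 3)
    (hm0 : m0 = a * (1 + p ^ 2) / (1 + p ^ 2 * a ^ 2)) (hm1 : m1 = b * (1 + q ^ 2) / (1 + q ^ 2 * b ^ 2))
    (hs0 : 0 ≤ s) (hs2 : s ≤ 2 * (a - b)) (hsb : s * b ≤ a ^ 2 / 2) (hc1 : 64 / 81 ≤ c) (hc2 : c ≤ 10 / 9) :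
    -(q ^ 2 * b * (4 / 3)) - p ^ 2 * q ^ 2 * (a * b) * (28 / 27) ≤ c * (m0 - m1) - s * m0 * m1 := by
  have ha0 : 0 ≤ a := le_trans hb hab
  have hab0 : 0 ≤ a * b := mul_nonneg ha0 hb
  have hab9 : a * b ≤ 1 / 9 := by nlinarith
  have hamb : 0 ≤ a - b := by linarith
  have hn1 : 0 ≤ c * (a - b) - s * (a * b) := by
    have h1 : s * (a * b) ≤ 2 * (a - b) * (1 / 9) :=
      mul_le_mul hs2 hab9 hab0 (by linarith)
    have h2 : 64 / 81 * (a - b) ≤ c * (a - b) := mul_le_mul_of_nonneg_right hc1 hamb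
    linarith
  have hn2 : 0 ≤ c * (1 - a * b) - s * b := by
    have h1 : 64 / 81 * (8 / 9) ≤ c * (1 - a * b) :=
      mul_le_mul hc1 (by linarith) (by norm_num) (by linarith)
    have h2 : a ^ 2 ≤ (1 / 3) ^ 2 := by gcongr
    linarith
  have hn3 : c * (1 - a * b) + s * a ≤ 4 / 3 := by
    have h1 : s * a ≤ (2 * (1 / 3)) * (1 / 3) := mul_le_mul (by linarith) ha3 ha0 (by norm_num)
    have h2 : c * (1 - a * b) ≤ 10 / 9 * 1 := mul_le_mul hc2 (by linarith) (by linarith) (by norm_num)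
    linarith
  have hn4 : c * (a - b) + s ≤ 28 / 27 := by
    have h1 : c * (a - b) ≤ 10 / 9 * (1 / 3) :=
      mul_le_mul hc2 (by linarith) (by linarith) (by norm_num)
    linarith
  have hX : 0 ≤ q ^ 2 * b * (4 / 3) + p ^ 2 * q ^ 2 * (a * b) * (28 / 27) := by positivity
  have h1 : q ^ 2 * b * (c * (1 - a * b) + s * a) ≤ q ^ 2 * b * (4 / 3) :=
    mul_le_mul_of_nonneg_left hn3 (by positivity)
  have h2 : p ^ 2 * q ^ 2 * (a * b) * (c * (a - b) + s) ≤ p ^ 2 * q ^ 2 * (a * b) * (28 / 27) :=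
    mul_le_mul_of_nonneg_left hn4 (by positivity)
  have h3 : 0 ≤ p ^ 2 * a * (c * (1 - a * b) - s * b) := mul_nonneg (by positivity) hn2
  rw [qf_bracket a b p q c s m0 m1 hm0 hm1]
  have hEE : 1 ≤ (1 + p ^ 2 * a ^ 2) * (1 + q ^ 2 * b ^ 2) := by
    have e1 : 0 ≤ p ^ 2 * a ^ 2 := by positivity
    have e2 : 0 ≤ q ^ 2 * b ^ 2 := by positivity
    nlinarith [mul_nonneg e1 e2]
  rw [le_div_iff₀ (by linarith)]
  have h4 := mul_nonneg hX (sub_nonneg.2 hEE)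
  linarith

lemma qf_L1 (a b p q s X : ℝ) (ha0 : 0 ≤ a) (hb : 0 ≤ b) (hp : 0 < p) (hq : 0 < q) (ha3 : a ≤ 1 / 3)
    (hs0 : 0 ≤ s) (hs2 : s ≤ 2 * a) (hsb : s * b ≤ a ^ 2 / 2)
    (hpa : p ^ 2 * a ^ 2 ≤ 1 / 8) (hqb : q ^ 2 * b ^ 2 ≤ 1 / 8)
    (hX : -(q ^ 2 * b * (4 / 3)) - p ^ 2 * q ^ 2 * (a * b) * (28 / 27) ≤ X) :
    -(2 / 27 * q ^ 2) - 7 / 81 * (p * q) ≤ s * X := by
  have h1 : s * (-(q ^ 2 * b * (4 / 3)) - p ^ 2 * q ^ 2 * (a * b) * (28 / 27)) ≤ s * X :=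
    mul_le_mul_of_nonneg_left hX hs0
  have ha9 : a ^ 2 ≤ (1 / 3) ^ 2 := by gcongr
  have h2 : s * b * q ^ 2 ≤ 1 / 18 * q ^ 2 :=
    mul_le_mul_of_nonneg_right (by linarith) (sq_nonneg q)
  have hpaqb : (p * a) * (q * b) ≤ 1 / 8 := by nlinarith [sq_nonneg (p * a - q * b)]
  have hpaqb0 : 0 ≤ (p * a) * (q * b) := by positivity
  have h3 : s * ((p * a) * (q * b)) ≤ 2 / 3 * (1 / 8) :=
    mul_le_mul (by linarith) hpaqb hpaqb0 (by norm_num)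
  have h4 : s * ((p * a) * (q * b)) * (p * q) ≤ 2 / 3 * (1 / 8) * (p * q) :=
    mul_le_mul_of_nonneg_right h3 (by positivity)
  have e : s * (-(q ^ 2 * b * (4 / 3)) - p ^ 2 * q ^ 2 * (a * b) * (28 / 27))
      = -(4 / 3) * (s * b * q ^ 2) - (28 / 27) * (s * ((p * a) * (q * b)) * (p * q)) := by ring
  rw [e] at h1
  linarith

lemma qf_L2 (a b p q s m1 w0 : ℝ) (ha0 : 0 ≤ a) (hb : 0 ≤ b) (hs0 : 0 ≤ s) (hsb : s * b ≤ a ^ 2 / 2)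
    (ha9 : a ^ 2 ≤ 1 / 9) (hpa : p ^ 2 * a ^ 2 ≤ 1 / 8) (hw0 : 0 ≤ w0) (hw : w0 ≤ p)
    (hm1u : m1 ≤ b * (1 + q ^ 2)) :
    s * m1 * w0 ^ 2 ≤ 1 / 18 * w0 ^ 2 + 1 / 16 * q ^ 2 := by
  have h0 : s * m1 ≤ s * (b * (1 + q ^ 2)) := mul_le_mul_of_nonneg_left hm1u hs0
  have h2 : s * b * (1 + q ^ 2) ≤ a ^ 2 / 2 * (1 + q ^ 2) :=
    mul_le_mul_of_nonneg_right hsb (by positivity)
  have h1 : s * m1 ≤ a ^ 2 / 2 * (1 + q ^ 2) := by linarith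
  have h2 : s * m1 * w0 ^ 2 ≤ a ^ 2 / 2 * (1 + q ^ 2) * w0 ^ 2 :=
    mul_le_mul_of_nonneg_right h1 (sq_nonneg _)
  have h3 : a ^ 2 * w0 ^ 2 ≤ 1 / 8 := by
    have h5 : w0 ^ 2 ≤ p ^ 2 := by gcongr
    have := mul_le_mul_of_nonneg_left h5 (sq_nonneg a)
    linarith
  have h4 : a ^ 2 * w0 ^ 2 ≤ 1 / 9 * w0 ^ 2 := mul_le_mul_of_nonneg_right ha9 (sq_nonneg _)
  have h6 := mul_le_mul_of_nonneg_right h3 (sq_nonneg q)
  have e : a ^ 2 / 2 * (1 + q ^ 2) * w0 ^ 2 = 1 / 2 * (a ^ 2 * w0 ^ 2) + 1 / 2 * (a ^ 2 * w0 ^ 2 * q ^ 2) := by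
    ring
  linarith

lemma qf_final (k c s m0 m1 w0 w1 p q X : ℝ) (hk : 56 / 81 ≤ k) (hc1 : 64 / 81 ≤ c)
    (hw00 : 0 < w0) (hw10 : 0 < w1) (hp : 0 < p) (hq : 0 < q)
    (hw0l : 64 / 81 * p ≤ w0) (hw1l : 64 / 81 * q ≤ w1)
    (hL1 : -(2 / 27 * q ^ 2) - 7 / 81 * (p * q) ≤ X)
    (hL2 : s * m1 * w0 ^ 2 ≤ 1 / 18 * w0 ^ 2 + 1 / 16 * q ^ 2)
    (hL3 : 0 ≤ s * m0 * w1 ^ 2) :
    0 < X + k * (c * (w0 + w1) ^ 2 + s * (m0 * w1 ^ 2 - m1 * w0 ^ 2)) := by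
  have hqq : q ^ 2 ≤ 6561 / 4096 * w1 ^ 2 := by
    have := mul_self_le_mul_self (by positivity : (0:ℝ) ≤ 64 / 81 * q) hw1l
    linarith
  have hpq : p * q ≤ 6561 / 4096 * (w0 * w1) := by
    have h1 : (64 / 81 * p) * (64 / 81 * q) ≤ w0 * w1 :=
      mul_le_mul hw0l hw1l (by positivity) hw00.le
    linarith
  have hw01 : 0 < w0 * w1 := mul_pos hw00 hw10
  have hw0s : 0 < w0 ^ 2 := by positivity
  have hw1s : 0 < w1 ^ 2 := by positivity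
  have hbr3 : 64 / 81 * (w0 + w1) ^ 2 - (1 / 18 * w0 ^ 2 + 1 / 16 * q ^ 2) ≤
      c * (w0 + w1) ^ 2 + s * (m0 * w1 ^ 2 - m1 * w0 ^ 2) := by
    have : 64 / 81 * (w0 + w1) ^ 2 ≤ c * (w0 + w1) ^ 2 :=
      mul_le_mul_of_nonneg_right hc1 (sq_nonneg _)
    have e : s * (m0 * w1 ^ 2 - m1 * w0 ^ 2) = s * m0 * w1 ^ 2 - s * m1 * w0 ^ 2 := by ring
    linarith
  have e2 : (w0 + w1) ^ 2 = w0 ^ 2 + 2 * (w0 * w1) + w1 ^ 2 := by ring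
  have hbr4 : 0 ≤ 64 / 81 * (w0 + w1) ^ 2 - (1 / 18 * w0 ^ 2 + 1 / 16 * q ^ 2) := by
    rw [e2]; linarith
  have hbr5 : 56 / 81 * (64 / 81 * (w0 + w1) ^ 2 - (1 / 18 * w0 ^ 2 + 1 / 16 * q ^ 2)) ≤
      k * (c * (w0 + w1) ^ 2 + s * (m0 * w1 ^ 2 - m1 * w0 ^ 2)) :=
    mul_le_mul hk hbr3 hbr4 (by linarith)
  rw [e2] at hbr5
  linarith

/-- Same sign case of the quadratic form inequality. -/
lemma qf_det_pos (a b p q k : ℝ) (hb : 0 ≤ b) (hab : b ≤ a) (hp : 0 < p) (hq : 0 < q)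
    (ha : a ^ 2 * (9 + 8 * p ^ 2) ≤ 1) (hb' : b ^ 2 * (9 + 8 * q ^ 2) ≤ 1)
    (hk : 56 / 81 ≤ k) (m0 m1 w0 w1 s c : ℝ)
    (hm0 : m0 = a * (1 + p ^ 2) / (1 + p ^ 2 * a ^ 2)) (hm1 : m1 = b * (1 + q ^ 2) / (1 + q ^ 2 * b ^ 2))
    (hw0 : w0 = p * (1 - a ^ 2) / (1 + p ^ 2 * a ^ 2)) (hw1 : w1 = q * (1 - b ^ 2) / (1 + q ^ 2 * b ^ 2))
    (hs : s = 2 * (a - b) * (1 - a * b)) (hc : c = (1 - a * b) ^ 2 + (a - b) ^ 2) :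
    0 < s * (c * (m0 - m1) - s * m0 * m1) + k * (c * (w0 + w1) ^ 2 + s * (m0 * w1 ^ 2 - m1 * w0 ^ 2)) := by
  have ha0 : 0 ≤ a := le_trans hb hab
  have ha9 := qf1 a p ha
  have hb9 := qf1 b q hb'
  have ha3 := qf3 a ha9
  have hpa := qf2 a p ha
  have hqb := qf2 b q hb'
  have hE01 : 1 ≤ 1 + p ^ 2 * a ^ 2 := by have : 0 ≤ p ^ 2 * a ^ 2 := by positivity
                                          linarith
  have hE11 : 1 ≤ 1 + q ^ 2 * b ^ 2 := by have : 0 ≤ q ^ 2 * b ^ 2 := by positivity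
                                          linarith
  have hE02 : 1 + p ^ 2 * a ^ 2 ≤ 9 / 8 := by linarith
  have hE12 : 1 + q ^ 2 * b ^ 2 ≤ 9 / 8 := by linarith
  obtain ⟨hs0, hs2, hsb⟩ := qf_s a b hb hab ha3
  rw [← hs] at hs0 hs2 hsb
  obtain ⟨hc1, hc2⟩ := qf_c a b hb hab ha3
  rw [← hc] at hc1 hc2
  have hw0l := qf_w_lower a p _ w0 hp ha9 hE01 hE02 hw0
  have hw1l := qf_w_lower b q _ w1 hq hb9 hE11 hE12 hw1
  have hw0u := qf_w_upper a p _ w0 hp hE01 hw0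
  have hw00 : 0 < w0 := lt_of_lt_of_le (by positivity) hw0l
  have hw10 : 0 < w1 := lt_of_lt_of_le (by positivity) hw1l
  have hbr := qf_br a b p q c s m0 m1 hb hab ha3 hm0 hm1 hs0 hs2 hsb hc1 hc2
  have hL1 := qf_L1 a b p q s _ ha0 hb hp hq ha3 hs0 (by linarith) hsb hpa hqb hbr
  have hm00 : 0 ≤ m0 := by rw [hm0]; positivity
  have hm1u : m1 ≤ b * (1 + q ^ 2) := by
    rw [hm1]; exact div_le_self (by positivity) hE11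
  have hL2 := qf_L2 a b p q s m1 w0 ha0 hb hs0 hsb ha9 hpa hw00.le hw0u hm1u
  exact qf_final k c s m0 m1 w0 w1 p q _ hk hc1 hw00 hw10 hp hq hw0l hw1l hL1 hL2 (by positivity)

end Pool.Agent.MX
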