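import Mathlib
import Pool.Agent.Lib_helper94.MX.QF

set_option autoImplicit false

namespace Pool.Agent.MX

lemma form_nonneg_of_det (A B D z0 z1 : ℝ) (hA : 0 < A) (hdet : 0 < A * D - B ^ 2) :
    0 ≤ A * z0 ^ 2 - 2 * B * (z0 * z1) + D * z1 ^ 2 := by
  have h : 0 ≤ A * (A * z0 ^ 2 - 2 * B * (z0 * z1) + D * z1 ^ 2) := by
    have e : A * (A * z0 ^ 2 - 2 * B * (z0 * z1) + D * z1 ^ 2)
        = (A * z0 - B * z1) ^ 2 + (A * D - B ^ 2) * z1 ^ 2 := by ring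
    rw [e]; positivity
  exact nonneg_of_mul_nonneg_right h hA

/-- same sign, `0 ≤ b ≤ a` -/
lemma qf_form_pp (a b p q k z0 z1 : ℝ) (hb : 0 ≤ b) (hab : b ≤ a) (hp : 0 < p) (hq : 0 < q)
    (ha : a ^ 2 * (9 + 8 * p ^ 2) ≤ 1) (hb' : b ^ 2 * (9 + 8 * q ^ 2) ≤ 1)
    (hk : 56 / 81 ≤ k) (m0 m1 w0 w1 s c : ℝ)
    (hm0 : m0 = a * (1 + p ^ 2) / (1 + p ^ 2 * a ^ 2)) (hm1 : m1 = b * (1 + q ^ 2) / (1 + q ^ 2 * b ^ 2))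
    (hw0 : w0 = p * (1 - a ^ 2) / (1 + p ^ 2 * a ^ 2)) (hw1 : w1 = q * (1 - b ^ 2) / (1 + q ^ 2 * b ^ 2))
    (hs : s = 2 * (a - b) * (1 - a * b)) (hc : c = (1 - a * b) ^ 2 + (a - b) ^ 2) :
    0 ≤ c * (z0 - z1) ^ 2 + s * (m0 * z0 ^ 2 - m1 * z1 ^ 2) + k * (w0 * z0 + w1 * z1) ^ 2 := by
  have hdet := qf_det_pos a b p q k hb hab hp hq ha hb' hk m0 m1 w0 w1 s c hm0 hm1 hw0 hw1 hs hc
  have ha3 := qf3 a (qf1 a p ha)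
  have hc1 := (qf_c a b hb hab ha3).1
  rw [← hc] at hc1
  have hs0 := (qf_s a b hb hab ha3).1
  rw [← hs] at hs0
  have ha0 : 0 ≤ a := le_trans hb hab
  have hm00 : 0 ≤ m0 := by rw [hm0]; positivity
  have hA : 0 < c + s * m0 + k * w0 ^ 2 := by
    have : 0 ≤ s * m0 := mul_nonneg hs0 hm00
    have h2 : 0 ≤ k * w0 ^ 2 := mul_nonneg (by linarith) (sq_nonneg _)
    linarith
  have h := form_nonneg_of_det (c + s * m0 + k * w0 ^ 2) (c - k * w0 * w1) (c - s * m1 + k * w1 ^ 2) z0 z1 hA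
    (by
      have e : (c + s * m0 + k * w0 ^ 2) * (c - s * m1 + k * w1 ^ 2) - (c - k * w0 * w1) ^ 2
        = s * (c * (m0 - m1) - s * m0 * m1) + k * (c * (w0 + w1) ^ 2 + s * (m0 * w1 ^ 2 - m1 * w0 ^ 2)) := by
        ring
      rw [e]; exact hdet)
  have e2 : c * (z0 - z1) ^ 2 + s * (m0 * z0 ^ 2 - m1 * z1 ^ 2) + k * (w0 * z0 + w1 * z1) ^ 2
      = (c + s * m0 + k * w0 ^ 2) * z0 ^ 2 - 2 * (c - k * w0 * w1) * (z0 * z1)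
        + (c - s * m1 + k * w1 ^ 2) * z1 ^ 2 := by ring
  rw [e2]; exact h

/-- the form, both parameters nonnegative -/
lemma qf_form_nn (a b p q k z0 z1 : ℝ) (ha0 : 0 ≤ a) (hb0 : 0 ≤ b) (hp : 0 < p) (hq : 0 < q)
    (ha : a ^ 2 * (9 + 8 * p ^ 2) ≤ 1) (hb' : b ^ 2 * (9 + 8 * q ^ 2) ≤ 1)
    (hk : 56 / 81 ≤ k) :
    0 ≤ ((1 - a * b) ^ 2 + (a - b) ^ 2) * (z0 - z1) ^ 2
      + (2 * (a - b) * (1 - a * b)) * ((a * (1 + p ^ 2) / (1 + p ^ 2 * a ^ 2)) * z0 ^ 2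
        - (b * (1 + q ^ 2) / (1 + q ^ 2 * b ^ 2)) * z1 ^ 2)
      + k * ((p * (1 - a ^ 2) / (1 + p ^ 2 * a ^ 2)) * z0 + (q * (1 - b ^ 2) / (1 + q ^ 2 * b ^ 2)) * z1) ^ 2 := by
  rcases le_total b a with h | h
  · exact qf_form_pp a b p q k z0 z1 hb0 h hp hq ha hb' hk _ _ _ _ _ _ rfl rfl rfl rfl rfl rfl
  · have := qf_form_pp b a q p k z1 z0 ha0 h hq hp hb' ha hk _ _ _ _ _ _ rfl rfl rfl rfl rfl rfl
    have e : ((1 - a * b) ^ 2 + (a - b) ^ 2) * (z0 - z1) ^ 2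
      + (2 * (a - b) * (1 - a * b)) * ((a * (1 + p ^ 2) / (1 + p ^ 2 * a ^ 2)) * z0 ^ 2
        - (b * (1 + q ^ 2) / (1 + q ^ 2 * b ^ 2)) * z1 ^ 2)
      + k * ((p * (1 - a ^ 2) / (1 + p ^ 2 * a ^ 2)) * z0 + (q * (1 - b ^ 2) / (1 + q ^ 2 * b ^ 2)) * z1) ^ 2
      = ((1 - b * a) ^ 2 + (b - a) ^ 2) * (z1 - z0) ^ 2
      + (2 * (b - a) * (1 - b * a)) * ((b * (1 + q ^ 2) / (1 + q ^ 2 * b ^ 2)) * z1 ^ 2
        - (a * (1 + p ^ 2) / (1 + p ^ 2 * a ^ 2)) * z0 ^ 2)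
      + k * ((q * (1 - b ^ 2) / (1 + q ^ 2 * b ^ 2)) * z1 + (p * (1 - a ^ 2) / (1 + p ^ 2 * a ^ 2)) * z0) ^ 2 := by
      ring
    rw [e]; exact this

/-- the form, opposite signs -/
lemma qf_form_opp (a b p q k z0 z1 : ℝ) (ha0 : 0 ≤ a) (hb0 : b ≤ 0) (ha1 : a ≤ 1) (hk : 0 ≤ k) :
    0 ≤ ((1 - a * b) ^ 2 + (a - b) ^ 2) * (z0 - z1) ^ 2
      + (2 * (a - b) * (1 - a * b)) * ((a * (1 + p ^ 2) / (1 + p ^ 2 * a ^ 2)) * z0 ^ 2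
        - (b * (1 + q ^ 2) / (1 + q ^ 2 * b ^ 2)) * z1 ^ 2)
      + k * ((p * (1 - a ^ 2) / (1 + p ^ 2 * a ^ 2)) * z0 + (q * (1 - b ^ 2) / (1 + q ^ 2 * b ^ 2)) * z1) ^ 2 := by
  have h1 : 0 ≤ 2 * (a - b) * (1 - a * b) := by
    have : a * b ≤ 0 := mul_nonpos_of_nonneg_of_nonpos ha0 hb0
    apply mul_nonneg <;> linarith
  have h2 : 0 ≤ a * (1 + p ^ 2) / (1 + p ^ 2 * a ^ 2) * z0 ^ 2 := by positivity
  have h3 : b * (1 + q ^ 2) / (1 + q ^ 2 * b ^ 2) * z1 ^ 2 ≤ 0 := by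
    apply mul_nonpos_of_nonpos_of_nonneg _ (sq_nonneg _)
    apply div_nonpos_of_nonpos_of_nonneg _ (by positivity)
    apply mul_nonpos_of_nonpos_of_nonneg hb0 (by positivity)
  have h4 := mul_nonneg h1 (sub_nonneg.2 (le_trans h3 h2))
  have h5 : 0 ≤ ((1 - a * b) ^ 2 + (a - b) ^ 2) * (z0 - z1) ^ 2 := by positivity
  have h6 : 0 ≤ k * ((p * (1 - a ^ 2) / (1 + p ^ 2 * a ^ 2)) * z0 + (q * (1 - b ^ 2) / (1 + q ^ 2 * b ^ 2)) * z1) ^ 2 := by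
    positivity
  linarith

/-- The quadratic form inequality. -/
theorem qf_form (a b p q k z0 z1 : ℝ) (hp : 0 < p) (hq : 0 < q)
    (ha : a ^ 2 * (9 + 8 * p ^ 2) ≤ 1) (hb : b ^ 2 * (9 + 8 * q ^ 2) ≤ 1)
    (hk : 56 / 81 ≤ k) :
    0 ≤ ((1 - a * b) ^ 2 + (a - b) ^ 2) * (z0 - z1) ^ 2
      + (2 * (a - b) * (1 - a * b)) * ((a * (1 + p ^ 2) / (1 + p ^ 2 * a ^ 2)) * z0 ^ 2
        - (b * (1 + q ^ 2) / (1 + q ^ 2 * b ^ 2)) * z1 ^ 2)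
      + k * ((p * (1 - a ^ 2) / (1 + p ^ 2 * a ^ 2)) * z0 + (q * (1 - b ^ 2) / (1 + q ^ 2 * b ^ 2)) * z1) ^ 2 := by
  have hneg : ∀ (a b : ℝ), ((1 - a * b) ^ 2 + (a - b) ^ 2) * (z0 - z1) ^ 2
      + (2 * (a - b) * (1 - a * b)) * ((a * (1 + p ^ 2) / (1 + p ^ 2 * a ^ 2)) * z0 ^ 2
        - (b * (1 + q ^ 2) / (1 + q ^ 2 * b ^ 2)) * z1 ^ 2)
      + k * ((p * (1 - a ^ 2) / (1 + p ^ 2 * a ^ 2)) * z0 + (q * (1 - b ^ 2) / (1 + q ^ 2 * b ^ 2)) * z1) ^ 2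
      = ((1 - (-a) * (-b)) ^ 2 + ((-a) - (-b)) ^ 2) * (z0 - z1) ^ 2
      + (2 * ((-a) - (-b)) * (1 - (-a) * (-b))) * (((-a) * (1 + p ^ 2) / (1 + p ^ 2 * (-a) ^ 2)) * z0 ^ 2
        - ((-b) * (1 + q ^ 2) / (1 + q ^ 2 * (-b) ^ 2)) * z1 ^ 2)
      + k * ((p * (1 - (-a) ^ 2) / (1 + p ^ 2 * (-a) ^ 2)) * z0 + (q * (1 - (-b) ^ 2) / (1 + q ^ 2 * (-b) ^ 2)) * z1) ^ 2 := by
    intro a b
    simp only [neg_mul, mul_neg, neg_neg, neg_sq, neg_div]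
    ring
  have ha9 := qf1 a p ha
  have hb9 := qf1 b q hb
  rcases le_total 0 a with h0 | h0 <;> rcases le_total 0 b with h1 | h1
  · exact qf_form_nn a b p q k z0 z1 h0 h1 hp hq ha hb hk
  · exact qf_form_opp a b p q k z0 z1 h0 h1 (by linarith [qf3 a ha9]) (by linarith)
  · rw [hneg]
    have ha9' : (-a) ^ 2 ≤ 1 / 9 := by rw [neg_sq]; exact ha9
    exact qf_form_opp (-a) (-b) p q k z0 z1 (by linarith) (by linarith) (by linarith [qf3 (-a) ha9']) (by linarith)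
  · rw [hneg]
    exact qf_form_nn (-a) (-b) p q k z0 z1 (by linarith) (by linarith) hp hq (by rw [neg_sq]; exact ha)
      (by rw [neg_sq]; exact hb) hk

end Pool.Agent.MX
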