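import Mathlib
import Pool.Agent.Lib_helper94.MX.QF2

set_option autoImplicit false

open Real

namespace Pool.Agent.MX

lemma param (θ β : ℝ) (hθ : 0 < θ) (hβ : 0 < β) (hs : θ + β < π)
    (h9 : 8 ≤ 9 * cos (θ - β) - cos (θ + β)) :
    ∃ p a : ℝ, 0 < p ∧ a ^ 2 * (9 + 8 * p ^ 2) ≤ 1 ∧ -1 < a ∧ a < 1 ∧
      sin θ / sin β = (1 + a) / (1 - a) ∧
      cos θ / sin θ + cos β / sin β = 2 * (1 + p ^ 2 * a ^ 2) / (p * (1 - a ^ 2)) ∧
      cos β / sin β - cos θ / sin θ = 2 * (a * (1 + p ^ 2)) / (p * (1 - a ^ 2)) := by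
  have hsθ : 0 < sin θ := sin_pos_of_pos_of_lt_pi hθ (by linarith)
  have hsβ : 0 < sin β := sin_pos_of_pos_of_lt_pi hβ (by linarith)
  have hcc : 0 < cos θ + cos β := by
    rw [cos_add_cos]
    have h1 : 0 < cos ((θ + β) / 2) := cos_pos_of_mem_Ioo ⟨by linarith, by linarith⟩
    have h2 : 0 < cos ((θ - β) / 2) := cos_pos_of_mem_Ioo ⟨by linarith, by linarith⟩
    positivity
  have hss : 0 < sin θ + sin β := by linarith
  obtain ⟨K, hK⟩ : ∃ K, K = (cos θ + cos β) / 2 := ⟨_, rfl⟩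
  obtain ⟨p, hp⟩ : ∃ p, p = (sin θ + sin β) / (cos θ + cos β) := ⟨_, rfl⟩
  obtain ⟨a, ha⟩ : ∃ a, a = (sin θ - sin β) / (sin θ + sin β) := ⟨_, rfl⟩
  have hKp : 0 < K := by rw [hK]; positivity
  have hpp : 0 < p := by rw [hp]; positivity
  have h1 : sin θ = K * p * (1 + a) := by
    rw [hK, hp, ha]; field_simp; ring
  have h2 : sin β = K * p * (1 - a) := by
    rw [hK, hp, ha]; field_simp; ring
  have hsq1 := sin_sq_add_cos_sq θ
  have hsq2 := sin_sq_add_cos_sq β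
  have hkey : K * (p ^ 2 * a) = (cos β - cos θ) / 2 := by
    rw [hK, hp, ha]
    field_simp
    nlinarith
  have h3 : cos θ = K * (1 - p ^ 2 * a) := by
    have : K * (1 - p ^ 2 * a) = K - K * (p ^ 2 * a) := by ring
    rw [this, hkey, hK]; ring
  have h4 : cos β = K * (1 + p ^ 2 * a) := by
    have : K * (1 + p ^ 2 * a) = K + K * (p ^ 2 * a) := by ring
    rw [this, hkey, hK]; ring
  have ha1 : a < 1 := by rw [ha, div_lt_one hss]; linarith
  have ha2 : -1 < a := by rw [ha, lt_div_iff₀ hss]; linarith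
  have hone : K ^ 2 * ((1 + p ^ 2) * (1 + p ^ 2 * a ^ 2)) = 1 := by
    rw [h1, h3] at hsq1
    linarith
  have hcon : a ^ 2 * (9 + 8 * p ^ 2) ≤ 1 := by
    rw [cos_sub, cos_add, h1, h2, h3, h4] at h9
    have h5 : 0 ≤ K ^ 2 * (2 * p ^ 2) * (1 - a ^ 2 * (9 + 8 * p ^ 2)) := by nlinarith
    have h6 : 0 < K ^ 2 * (2 * p ^ 2) := by positivity
    have := nonneg_of_mul_nonneg_right h5 h6
    linarith
  have h1a : 0 < 1 + a := by linarith
  have h1b : 0 < 1 - a := by linarith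
  have h1c : 0 < 1 - a ^ 2 := by nlinarith
  refine ⟨p, a, hpp, hcon, ha2, ha1, ?_, ?_, ?_⟩
  · rw [h1, h2]; field_simp
  · rw [h1, h2, h3, h4]
    rw [div_add_div _ _ (by positivity) (by positivity), div_eq_div_iff (by positivity) (by positivity)]
    ring
  · rw [h1, h2, h3, h4]
    rw [div_sub_div _ _ (by positivity) (by positivity), div_eq_div_iff (by positivity) (by positivity)]
    ring

lemma second_deriv_nonneg (θ0 β0 θ1 β1 v0 v1 X : ℝ) (h0 : 0 < θ0) (h0' : 0 < β0) (hs0 : θ0 + β0 < π)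
    (h1 : 0 < θ1) (h1' : 0 < β1) (hs1 : θ1 + β1 < π)
    (h90 : 8 ≤ 9 * cos (θ0 - β0) - cos (θ0 + β0)) (h91 : 8 ≤ 9 * cos (θ1 - β1) - cos (θ1 + β1))
    (hX : 7 / 9 ≤ cos X) :
    0 ≤ 8 * cosh ((log (sin θ0) - log (sin β0)) - (log (sin θ1) - log (sin β1))) *
          ((cos θ0 / sin θ0 + cos β0 / sin β0) * v0 - (cos θ1 / sin θ1 + cos β1 / sin β1) * v1) ^ 2
      + 8 * sinh ((log (sin θ0) - log (sin β0)) - (log (sin θ1) - log (sin β1))) *
          (((cos β0 / sin β0) ^ 2 - (cos θ0 / sin θ0) ^ 2) * v0 ^ 2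
            - ((cos β1 / sin β1) ^ 2 - (cos θ1 / sin θ1) ^ 2) * v1 ^ 2)
      + 9 * cos X * (2 * (v0 + v1)) ^ 2 := by
  obtain ⟨p, a, hp, ha, ha1, ha2, hr0, hs0', hd0⟩ := param θ0 β0 h0 h0' hs0 h90
  obtain ⟨q, b, hq, hb, hb1, hb2, hr1, hs1', hd1⟩ := param θ1 β1 h1 h1' hs1 h91
  have hsθ0 : 0 < sin θ0 := sin_pos_of_pos_of_lt_pi h0 (by linarith)
  have hsβ0 : 0 < sin β0 := sin_pos_of_pos_of_lt_pi h0' (by linarith)
  have hsθ1 : 0 < sin θ1 := sin_pos_of_pos_of_lt_pi h1 (by linarith)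
  have hsβ1 : 0 < sin β1 := sin_pos_of_pos_of_lt_pi h1' (by linarith)
  have ha9 := qf1 a p ha
  have hb9 := qf1 b q hb
  have e1 : (log (sin θ0) - log (sin β0)) - (log (sin θ1) - log (sin β1))
      = log ((1 + a) / (1 - a) / ((1 + b) / (1 - b))) := by
    rw [← log_div hsθ0.ne' hsβ0.ne', ← log_div hsθ1.ne' hsβ1.ne', hr0, hr1, ← log_div]
    · have : 0 < 1 + a := by linarith
      have : 0 < 1 - a := by linarith
      positivity
    · have : 0 < 1 + b := by linarith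
      have : 0 < 1 - b := by linarith
      positivity
  have ha3 : 0 < 1 + a := by linarith
  have ha4 : 0 < 1 - a := by linarith
  have hb3 : 0 < 1 + b := by linarith
  have hb4 : 0 < 1 - b := by linarith
  have hm1 : 0 < 1 - a ^ 2 := by linarith
  have hm2 : 0 < 1 - b ^ 2 := by linarith
  have hR : 0 < (1 + a) / (1 - a) / ((1 + b) / (1 - b)) := by positivity
  have hE0 : 0 < 1 + p ^ 2 * a ^ 2 := by positivity
  have hE1 : 0 < 1 + q ^ 2 * b ^ 2 := by positivity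
  have hcosh : cosh ((log (sin θ0) - log (sin β0)) - (log (sin θ1) - log (sin β1)))
      = ((1 - a * b) ^ 2 + (a - b) ^ 2) / ((1 - a ^ 2) * (1 - b ^ 2)) := by
    rw [e1, cosh_log hR]
    have h1 : (1 - a ^ 2) = (1 - a) * (1 + a) := by ring
    have h2 : (1 - b ^ 2) = (1 - b) * (1 + b) := by ring
    rw [h1, h2]
    field_simp
    ring
  have hsinh : sinh ((log (sin θ0) - log (sin β0)) - (log (sin θ1) - log (sin β1)))
      = (2 * (a - b) * (1 - a * b)) / ((1 - a ^ 2) * (1 - b ^ 2)) := by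
    rw [e1, sinh_log hR]
    have h1 : (1 - a ^ 2) = (1 - a) * (1 + a) := by ring
    have h2 : (1 - b ^ 2) = (1 - b) * (1 + b) := by ring
    rw [h1, h2]
    field_simp
    ring
  obtain ⟨z0, hz0⟩ : ∃ z0, z0 = (cos θ0 / sin θ0 + cos β0 / sin β0) * v0 := ⟨_, rfl⟩
  obtain ⟨z1, hz1⟩ : ∃ z1, z1 = (cos θ1 / sin θ1 + cos β1 / sin β1) * v1 := ⟨_, rfl⟩
  have hv0 : 2 * v0 = p * (1 - a ^ 2) / (1 + p ^ 2 * a ^ 2) * z0 := by
    rw [hz0, hs0']; field_simp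
  have hv1 : 2 * v1 = q * (1 - b ^ 2) / (1 + q ^ 2 * b ^ 2) * z1 := by
    rw [hz1, hs1']; field_simp
  have hq0 : ((cos β0 / sin β0) ^ 2 - (cos θ0 / sin θ0) ^ 2) * v0 ^ 2
      = a * (1 + p ^ 2) / (1 + p ^ 2 * a ^ 2) * z0 ^ 2 := by
    have e : ((cos β0 / sin β0) ^ 2 - (cos θ0 / sin θ0) ^ 2)
      = (cos β0 / sin β0 - cos θ0 / sin θ0) * (cos θ0 / sin θ0 + cos β0 / sin β0) := by ring
    rw [hz0, e, hd0, hs0']; field_simp
  have hq1 : ((cos β1 / sin β1) ^ 2 - (cos θ1 / sin θ1) ^ 2) * v1 ^ 2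
      = b * (1 + q ^ 2) / (1 + q ^ 2 * b ^ 2) * z1 ^ 2 := by
    have e : ((cos β1 / sin β1) ^ 2 - (cos θ1 / sin θ1) ^ 2)
      = (cos β1 / sin β1 - cos θ1 / sin θ1) * (cos θ1 / sin θ1 + cos β1 / sin β1) := by ring
    rw [hz1, e, hd1, hs1']; field_simp
  have hvv : 2 * (v0 + v1) = p * (1 - a ^ 2) / (1 + p ^ 2 * a ^ 2) * z0 + q * (1 - b ^ 2) / (1 + q ^ 2 * b ^ 2) * z1 := by
    rw [← hv0, ← hv1]; ring
  rw [hcosh, hsinh, hq0, hq1, hvv, ← hz0, ← hz1]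
  have hmm : 64 / 81 ≤ (1 - a ^ 2) * (1 - b ^ 2) := by
    have : (8 / 9) * (8 / 9) ≤ (1 - a ^ 2) * (1 - b ^ 2) :=
      mul_le_mul (by linarith) (by linarith) (by norm_num) (by linarith)
    linarith
  have hk : 56 / 81 ≤ 9 / 8 * ((1 - a ^ 2) * (1 - b ^ 2)) * cos X := by
    have : 9 / 8 * (64 / 81) * (7 / 9) ≤ 9 / 8 * ((1 - a ^ 2) * (1 - b ^ 2)) * cos X :=
      mul_le_mul (by linarith) hX (by norm_num) (by linarith)
    linarith
  have hform := qf_form a b p q _ z0 z1 hp hq ha hb hk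
  have hmpos : 0 < (1 - a ^ 2) * (1 - b ^ 2) := by positivity
  have efin : 8 * (((1 - a * b) ^ 2 + (a - b) ^ 2) / ((1 - a ^ 2) * (1 - b ^ 2))) * (z0 - z1) ^ 2
      + 8 * ((2 * (a - b) * (1 - a * b)) / ((1 - a ^ 2) * (1 - b ^ 2))) *
        (a * (1 + p ^ 2) / (1 + p ^ 2 * a ^ 2) * z0 ^ 2 - b * (1 + q ^ 2) / (1 + q ^ 2 * b ^ 2) * z1 ^ 2)
      + 9 * cos X * (p * (1 - a ^ 2) / (1 + p ^ 2 * a ^ 2) * z0 + q * (1 - b ^ 2) / (1 + q ^ 2 * b ^ 2) * z1) ^ 2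
      = 8 / ((1 - a ^ 2) * (1 - b ^ 2)) * (((1 - a * b) ^ 2 + (a - b) ^ 2) * (z0 - z1) ^ 2
      + (2 * (a - b) * (1 - a * b)) * ((a * (1 + p ^ 2) / (1 + p ^ 2 * a ^ 2)) * z0 ^ 2
        - (b * (1 + q ^ 2) / (1 + q ^ 2 * b ^ 2)) * z1 ^ 2)
      + (9 / 8 * ((1 - a ^ 2) * (1 - b ^ 2)) * cos X) *
        ((p * (1 - a ^ 2) / (1 + p ^ 2 * a ^ 2)) * z0 + (q * (1 - b ^ 2) / (1 + q ^ 2 * b ^ 2)) * z1) ^ 2) := by
    generalize (p * (1 - a ^ 2) / (1 + p ^ 2 * a ^ 2)) * z0 + (q * (1 - b ^ 2) / (1 + q ^ 2 * b ^ 2)) * z1 = U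
    generalize (a * (1 + p ^ 2) / (1 + p ^ 2 * a ^ 2)) * z0 ^ 2 - (b * (1 + q ^ 2) / (1 + q ^ 2 * b ^ 2)) * z1 ^ 2 = V
    generalize hMM : (1 - a ^ 2) * (1 - b ^ 2) = M at *
    field_simp
  rw [efin]
  exact mul_nonneg (by positivity) hform

/-- cosine lower bound along a segment -/
lemma cos_seg (x y κ : ℝ) (hx : |x| < π) (hy : |y| < π) (hκ : 0 < κ) (h1 : κ ≤ cos x) (h2 : κ ≤ cos y)
    (t : ℝ) (ht0 : 0 ≤ t) (ht1 : t ≤ 1) : κ ≤ cos (x + t * (y - x)) := by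
  have key : ∀ z : ℝ, |z| < π → κ ≤ cos z → z ∈ Set.Icc (-(π / 2)) (π / 2) := by
    intro z hz hc
    rw [abs_lt] at hz
    constructor
    · by_contra hcon
      push Not at hcon
      have : cos (-z) ≤ 0 := cos_nonpos_of_pi_div_two_le_of_le (by linarith) (by linarith)
      rw [cos_neg] at this
      linarith
    · by_contra hcon
      push Not at hcon
      have : cos z ≤ 0 := cos_nonpos_of_pi_div_two_le_of_le (by linarith) (by linarith)
      linarith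
  have hc := strictConcaveOn_cos_Icc.concaveOn.2 (key x hx h1) (key y hy h2) (sub_nonneg.2 ht1) ht0 (by ring)
  simp only [smul_eq_mul] at hc
  have e : (1 - t) * x + t * y = x + t * (y - x) := by ring
  rw [e] at hc
  nlinarith

/-- the function `G` -/
noncomputable def Gf (c0 c1 s0 s1 : ℝ) : ℝ :=
  8 * cosh ((log (sin s0) - log (sin (c0 - s0))) - (log (sin s1) - log (sin (c1 - s1))))
    - 9 * cos (2 * (s0 + s1) - (c0 + c1)) + cos (c0 + c1)

lemma hasDeriv_cot (θ v t : ℝ) (h : sin (θ + t * v) ≠ 0) :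
    HasDerivAt (fun t => cos (θ + t * v) / sin (θ + t * v)) (-(1 + (cos (θ + t * v) / sin (θ + t * v)) ^ 2) * v) t := by
  have h1 : HasDerivAt (fun t => θ + t * v) v t := by
    simpa using ((hasDerivAt_id t).mul_const v).const_add θ
  have h2 := (h1.cos.div h1.sin h)
  refine h2.congr_deriv ?_
  generalize sin (θ + t * v) = S at *
  generalize cos (θ + t * v) = C at *
  field_simp
  ring

lemma hasDeriv_logsin (θ v t : ℝ) (h : sin (θ + t * v) ≠ 0) :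
    HasDerivAt (fun t => log (sin (θ + t * v))) (cos (θ + t * v) / sin (θ + t * v) * v) t := by
  have h1 : HasDerivAt (fun t => θ + t * v) v t := by
    simpa using ((hasDerivAt_id t).mul_const v).const_add θ
  have h2 := h1.sin.log h
  convert h2 using 1
  ring

theorem seg_real (c0 c1 s0 s1 s0' s1' : ℝ) (hc0 : c0 < π) (hc1 : c1 < π)
    (h0 : 0 < s0) (h0b : s0 < c0) (h1 : 0 < s1) (h1b : s1 < c1)
    (h0' : 0 < s0') (h0b' : s0' < c0) (h1' : 0 < s1') (h1b' : s1' < c1)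
    (hx0 : 8 ≤ 9 * cos (2 * s0 - c0) - cos c0) (hx0' : 8 ≤ 9 * cos (2 * s0' - c0) - cos c0)
    (hx1 : 8 ≤ 9 * cos (2 * s1 - c1) - cos c1) (hx1' : 8 ≤ 9 * cos (2 * s1' - c1) - cos c1)
    (hX : |2 * (s0 + s1) - (c0 + c1)| < π) (hX' : |2 * (s0' + s1') - (c0 + c1)| < π)
    (hG : Gf c0 c1 s0 s1 < 0) (hG' : Gf c0 c1 s0' s1' < 0) (t : ℝ) (ht0 : 0 ≤ t) (ht1 : t ≤ 1) :
    Gf c0 c1 (s0 + t * (s0' - s0)) (s1 + t * (s1' - s1)) < 0 := by
  obtain ⟨v0, hv0⟩ : ∃ v, v = s0' - s0 := ⟨_, rfl⟩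
  obtain ⟨v1, hv1⟩ : ∃ v, v = s1' - s1 := ⟨_, rfl⟩
  rw [← hv0, ← hv1]
  -- positions
  have hp : ∀ t : ℝ, t ∈ Set.Icc (0:ℝ) 1 → 0 < s0 + t * v0 ∧ s0 + t * v0 < c0 ∧ 0 < s1 + t * v1 ∧ s1 + t * v1 < c1 := by
    rintro t ⟨ht0, ht1⟩
    have e0 : s0 + t * v0 = (1 - t) * s0 + t * s0' := by rw [hv0]; ring
    have e1 : s1 + t * v1 = (1 - t) * s1 + t * s1' := by rw [hv1]; ring
    rcases eq_or_lt_of_le ht0 with rfl | ht
    · simp only [zero_mul, add_zero]; exact ⟨h0, h0b, h1, h1b⟩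
    · rw [e0, e1]
      have a1 : 0 ≤ 1 - t := by linarith
      refine ⟨?_, ?_, ?_, ?_⟩
      · nlinarith [mul_pos ht h0', mul_nonneg a1 h0.le]
      · nlinarith [mul_pos ht (sub_pos.2 h0b'), mul_nonneg a1 (sub_pos.2 h0b).le]
      · nlinarith [mul_pos ht h1', mul_nonneg a1 h1.le]
      · nlinarith [mul_pos ht (sub_pos.2 h1b'), mul_nonneg a1 (sub_pos.2 h1b).le]
  have hsp : ∀ t : ℝ, t ∈ Set.Icc (0:ℝ) 1 → 0 < sin (s0 + t * v0) ∧ 0 < sin ((c0 - s0) + t * (-v0)) ∧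
      0 < sin (s1 + t * v1) ∧ 0 < sin ((c1 - s1) + t * (-v1)) := by
    intro t ht
    obtain ⟨a, b, c, d⟩ := hp t ht
    exact ⟨sin_pos_of_pos_of_lt_pi a (by linarith), sin_pos_of_pos_of_lt_pi (by linarith) (by linarith),
      sin_pos_of_pos_of_lt_pi c (by linarith), sin_pos_of_pos_of_lt_pi (by linarith) (by linarith)⟩
  -- abbreviations for the path
  obtain ⟨y, hy⟩ : ∃ y : ℝ → ℝ, y = fun t => (log (sin (s0 + t * v0)) - log (sin ((c0 - s0) + t * (-v0))))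
      - (log (sin (s1 + t * v1)) - log (sin ((c1 - s1) + t * (-v1)))) := ⟨_, rfl⟩
  obtain ⟨y1, hy1⟩ : ∃ y1 : ℝ → ℝ, y1 = fun t =>
      (cos (s0 + t * v0) / sin (s0 + t * v0) + cos ((c0 - s0) + t * (-v0)) / sin ((c0 - s0) + t * (-v0))) * v0
      - (cos (s1 + t * v1) / sin (s1 + t * v1) + cos ((c1 - s1) + t * (-v1)) / sin ((c1 - s1) + t * (-v1))) * v1 :=
    ⟨_, rfl⟩
  obtain ⟨y2, hy2⟩ : ∃ y2 : ℝ → ℝ, y2 = fun t =>
      ((cos ((c0 - s0) + t * (-v0)) / sin ((c0 - s0) + t * (-v0))) ^ 2 - (cos (s0 + t * v0) / sin (s0 + t * v0)) ^ 2) * v0 ^ 2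
      - ((cos ((c1 - s1) + t * (-v1)) / sin ((c1 - s1) + t * (-v1))) ^ 2 - (cos (s1 + t * v1) / sin (s1 + t * v1)) ^ 2) * v1 ^ 2 :=
    ⟨_, rfl⟩
  have hdy : ∀ t ∈ Set.Icc (0:ℝ) 1, HasDerivAt y (y1 t) t := by
    intro t ht
    obtain ⟨a, b, c, d⟩ := hsp t ht
    rw [hy, hy1]
    have := ((hasDeriv_logsin s0 v0 t a.ne').sub (hasDeriv_logsin (c0 - s0) (-v0) t b.ne')).sub
      ((hasDeriv_logsin s1 v1 t c.ne').sub (hasDeriv_logsin (c1 - s1) (-v1) t d.ne'))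
    refine this.congr_deriv ?_
    simp only []
    ring
  have hdy1 : ∀ t ∈ Set.Icc (0:ℝ) 1, HasDerivAt y1 (y2 t) t := by
    intro t ht
    obtain ⟨a, b, c, d⟩ := hsp t ht
    rw [hy1, hy2]
    have := (((hasDeriv_cot s0 v0 t a.ne').add (hasDeriv_cot (c0 - s0) (-v0) t b.ne')).mul_const v0).sub
      (((hasDeriv_cot s1 v1 t c.ne').add (hasDeriv_cot (c1 - s1) (-v1) t d.ne')).mul_const v1)
    refine this.congr_deriv ?_
    simp only []
    ring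
  obtain ⟨Xf, hXf⟩ : ∃ Xf : ℝ → ℝ, Xf = fun t => 2 * (s0 + s1) - (c0 + c1) + t * (2 * (v0 + v1)) := ⟨_, rfl⟩
  have hdX : ∀ t, HasDerivAt Xf (2 * (v0 + v1)) t := by
    intro t
    rw [hXf]
    simpa using ((hasDerivAt_id t).mul_const (2 * (v0 + v1))).const_add (2 * (s0 + s1) - (c0 + c1))
  -- the function along the segment
  obtain ⟨g, hg⟩ : ∃ g : ℝ → ℝ, g = fun t => 8 * cosh (y t) - 9 * cos (Xf t) := ⟨_, rfl⟩
  obtain ⟨g1, hg1⟩ : ∃ g1 : ℝ → ℝ, g1 = fun t => 8 * (sinh (y t) * y1 t) + 9 * (sin (Xf t) * (2 * (v0 + v1))) :=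
    ⟨_, rfl⟩
  obtain ⟨g2, hg2⟩ : ∃ g2 : ℝ → ℝ, g2 = fun t => 8 * cosh (y t) * (y1 t) ^ 2 + 8 * sinh (y t) * y2 t
      + 9 * cos (Xf t) * (2 * (v0 + v1)) ^ 2 := ⟨_, rfl⟩
  have hdg : ∀ t ∈ Set.Icc (0:ℝ) 1, HasDerivAt g (g1 t) t := by
    intro t ht
    rw [hg, hg1]
    have := ((hdy t ht).cosh.const_mul 8).sub ((hdX t).cos.const_mul 9)
    refine this.congr_deriv ?_
    simp only []
    ring
  have hdg1 : ∀ t ∈ Set.Icc (0:ℝ) 1, HasDerivAt g1 (g2 t) t := by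
    intro t ht
    rw [hg1, hg2]
    have := (((hdy t ht).sinh.mul (hdy1 t ht)).const_mul 8).add
      (((hdX t).sin.mul_const (2 * (v0 + v1))).const_mul 9)
    refine this.congr_deriv ?_
    simp only []
    ring
  -- cosine bound
  have hcoshG : ∀ s0 s1, Gf c0 c1 s0 s1 < 0 → 7 / 9 ≤ cos (2 * (s0 + s1) - (c0 + c1)) := by
    intro s0 s1 h
    unfold Gf at h
    have h1 := one_le_cosh ((log (sin s0) - log (sin (c0 - s0))) - (log (sin s1) - log (sin (c1 - s1))))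
    have h2 := neg_one_le_cos (c0 + c1)
    linarith
  have hnn : ∀ t ∈ Set.Icc (0:ℝ) 1, 0 ≤ g2 t := by
    rintro t ⟨ht0, ht1⟩
    obtain ⟨a, b, c, d⟩ := hp t ⟨ht0, ht1⟩
    have hXt : 7 / 9 ≤ cos (Xf t) := by
      have := cos_seg _ _ (7/9) hX hX' (by norm_num) (hcoshG _ _ hG) (hcoshG _ _ hG') t ht0 ht1
      have e : (2 * (s0 + s1) - (c0 + c1)) + t * ((2 * (s0' + s1') - (c0 + c1)) - (2 * (s0 + s1) - (c0 + c1))) = Xf t := by
        rw [hXf, hv0, hv1]; ring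
      rw [e] at this
      exact this
    have hx0t : 8 ≤ 9 * cos ((s0 + t * v0) - ((c0 - s0) + t * (-v0))) - cos ((s0 + t * v0) + ((c0 - s0) + t * (-v0))) := by
      have hκ : 0 < (8 + cos c0) / 9 := by have := neg_one_le_cos c0; linarith
      have := cos_seg (2 * s0 - c0) (2 * s0' - c0) ((8 + cos c0) / 9) (by rw [abs_lt]; constructor <;> linarith)
        (by rw [abs_lt]; constructor <;> linarith) hκ (by linarith) (by linarith) t ht0 ht1
      have e : (2 * s0 - c0) + t * ((2 * s0' - c0) - (2 * s0 - c0)) = (s0 + t * v0) - ((c0 - s0) + t * (-v0)) := by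
        rw [hv0]; ring
      have e2 : (s0 + t * v0) + ((c0 - s0) + t * (-v0)) = c0 := by ring
      rw [e] at this
      rw [e2]
      linarith
    have hx1t : 8 ≤ 9 * cos ((s1 + t * v1) - ((c1 - s1) + t * (-v1))) - cos ((s1 + t * v1) + ((c1 - s1) + t * (-v1))) := by
      have hκ : 0 < (8 + cos c1) / 9 := by have := neg_one_le_cos c1; linarith
      have := cos_seg (2 * s1 - c1) (2 * s1' - c1) ((8 + cos c1) / 9) (by rw [abs_lt]; constructor <;> linarith)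
        (by rw [abs_lt]; constructor <;> linarith) hκ (by linarith) (by linarith) t ht0 ht1
      have e : (2 * s1 - c1) + t * ((2 * s1' - c1) - (2 * s1 - c1)) = (s1 + t * v1) - ((c1 - s1) + t * (-v1)) := by
        rw [hv1]; ring
      have e2 : (s1 + t * v1) + ((c1 - s1) + t * (-v1)) = c1 := by ring
      rw [e] at this
      rw [e2]
      linarith
    have := second_deriv_nonneg (s0 + t * v0) ((c0 - s0) + t * (-v0)) (s1 + t * v1) ((c1 - s1) + t * (-v1)) v0 v1 (Xf t)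
      a (by linarith) (by linarith) c (by linarith) (by linarith) hx0t hx1t hXt
    rw [hg2, hy, hy1, hy2]
    exact this
  have hconv : ConvexOn ℝ (Set.Icc (0:ℝ) 1) g := by
    apply convexOn_of_hasDerivWithinAt2_nonneg (convex_Icc 0 1) (f' := g1) (f'' := g2)
    · intro t ht
      exact (hdg t ht).continuousAt.continuousWithinAt
    · intro t ht
      exact (hdg t (interior_subset ht)).hasDerivWithinAt
    · intro t ht
      exact (hdg1 t (interior_subset ht)).hasDerivWithinAt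
    · intro t ht
      exact hnn t (interior_subset ht)
  have hcx := hconv.2 (Set.left_mem_Icc.2 zero_le_one) (Set.right_mem_Icc.2 zero_le_one) (sub_nonneg.2 ht1) ht0 (by ring)
  simp only [smul_eq_mul, mul_zero, mul_one, zero_add] at hcx
  have hgG : ∀ t, g t + cos (c0 + c1) = Gf c0 c1 (s0 + t * v0) (s1 + t * v1) := by
    intro t
    rw [hg, hy, hXf]
    unfold Gf
    have e1 : c0 - s0 + t * -v0 = c0 - (s0 + t * v0) := by ring
    have e2 : c1 - s1 + t * -v1 = c1 - (s1 + t * v1) := by ring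
    have e3 : 2 * (s0 + s1) - (c0 + c1) + t * (2 * (v0 + v1)) = 2 * (s0 + t * v0 + (s1 + t * v1)) - (c0 + c1) := by ring
    simp only [e1, e2, e3]
  have hg0 : g 0 + cos (c0 + c1) < 0 := by
    rw [hgG]; simpa using hG
  have hg1' : g 1 + cos (c0 + c1) < 0 := by
    rw [hgG]
    have e1 : s0 + 1 * v0 = s0' := by rw [hv0]; ring
    have e2 : s1 + 1 * v1 = s1' := by rw [hv1]; ring
    rw [e1, e2]; exact hG'
  rw [← hgG]
  rcases eq_or_lt_of_le ht0 with rfl | ht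
  · exact hg0
  · nlinarith [mul_pos ht (neg_pos.2 hg1'), mul_nonneg (sub_nonneg.2 ht1) (neg_pos.2 hg0).le]

end Pool.Agent.MX
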