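import Mathlib
import Pool.Agent.Lib_helper94.MX.Seg
import Pool.Agent.Lib_helper17.MX.Defs
import Pool.Agent.Lib_helper17.MX.Ident
import Pool.Agent.Lib_helper17.MX.Rolle

set_option autoImplicit false

open Real

namespace Pool.Agent.MX

/-- real-variable version of `tau` -/
noncomputable def tr (c s : ℝ) : ℝ := (cos s / sin s + cos (c - s) / sin (c - s)) / 2

/-- real-variable version of `FF` -/
noncomputable def FFv (c0 c1 c2 s0 s1 s2 : ℝ) : ℝ :=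
  tr c0 s0 * tr c1 s1 + tr c1 s1 * tr c2 s2 + tr c2 s2 * tr c0 s0

lemma FFv_cyc (c0 c1 c2 s0 s1 s2 : ℝ) : FFv c1 c2 c0 s1 s2 s0 = FFv c0 c1 c2 s0 s1 s2 := by
  unfold FFv; ring

lemma Gf_eq (c0 c1 c2 s0 s1 s2 : ℝ) (hc : c0 + c1 + c2 = 2 * π) (hs : s0 + s1 + s2 = π)
    (h0 : 0 < s0) (h0' : s0 < c0) (h1 : 0 < s1) (h1' : s1 < c1) (h2 : 0 < s2) (h2' : s2 < c2) :
    16 * sin s2 * sin (c2 - s2) * (FFv c0 c1 c2 s0 s1 s2 - 9 / 8) = Gf c0 c1 s0 s1 := by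
  have p0 : 0 < sin s0 := sin_pos_of_pos_of_lt_pi h0 (by linarith)
  have p1 : 0 < sin s1 := sin_pos_of_pos_of_lt_pi h1 (by linarith)
  have p2 : 0 < sin s2 := sin_pos_of_pos_of_lt_pi h2 (by linarith)
  have q0 : 0 < sin (c0 - s0) := sin_pos_of_pos_of_lt_pi (by linarith) (by linarith)
  have q1 : 0 < sin (c1 - s1) := sin_pos_of_pos_of_lt_pi (by linarith) (by linarith)
  have q2 : 0 < sin (c2 - s2) := sin_pos_of_pos_of_lt_pi (by linarith) (by linarith)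
  have e1 : s0 + s1 = π - s2 := by linarith
  have e2 : (c0 - s0) + (c1 - s1) = π - (c2 - s2) := by linarith
  have hid := ident_a s0 (c0 - s0) s1 (c1 - s1) p0.ne' q0.ne' p1.ne' q1.ne'
    (by rw [e1, sin_pi_sub]; exact p2.ne') (by rw [e2, sin_pi_sub]; exact q2.ne')
  rw [e1, e2, sin_pi_sub, sin_pi_sub, cos_pi_sub, cos_pi_sub, neg_neg, neg_div, sub_neg_eq_add] at hid
  have e3 : s0 - (c0 - s0) + s1 - (c1 - s1) = 2 * (s0 + s1) - (c0 + c1) := by ring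
  have e4 : s0 + (c0 - s0) + s1 + (c1 - s1) = c0 + c1 := by ring
  rw [e3, e4] at hid
  have e5 : (log (sin s0) - log (sin (c0 - s0))) - (log (sin s1) - log (sin (c1 - s1)))
      = log (sin s0 * sin (c1 - s1) / (sin (c0 - s0) * sin s1)) := by
    rw [log_div (by positivity) (by positivity), log_mul p0.ne' q1.ne', log_mul q0.ne' p1.ne']
    ring
  have e6 : cosh ((log (sin s0) - log (sin (c0 - s0))) - (log (sin s1) - log (sin (c1 - s1))))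
      = (sin s0 * sin (c1 - s1) / (sin (c0 - s0) * sin s1) + sin (c0 - s0) * sin s1 / (sin s0 * sin (c1 - s1))) / 2 := by
    rw [e5, cosh_log (by positivity), inv_div]
  unfold Gf FFv tr
  rw [e6]
  linarith

lemma Gf_neg_iff (c0 c1 c2 s0 s1 s2 : ℝ) (hc : c0 + c1 + c2 = 2 * π) (hs : s0 + s1 + s2 = π)
    (h0 : 0 < s0) (h0' : s0 < c0) (h1 : 0 < s1) (h1' : s1 < c1) (h2 : 0 < s2) (h2' : s2 < c2) :
    FFv c0 c1 c2 s0 s1 s2 < 9 / 8 ↔ Gf c0 c1 s0 s1 < 0 := by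
  rw [← Gf_eq c0 c1 c2 s0 s1 s2 hc hs h0 h0' h1 h1' h2 h2']
  have p2 : 0 < sin s2 := sin_pos_of_pos_of_lt_pi h2 (by linarith)
  have q2 : 0 < sin (c2 - s2) := sin_pos_of_pos_of_lt_pi (by linarith) (by linarith)
  have hpos : 0 < 16 * sin s2 * sin (c2 - s2) := by positivity
  constructor
  · intro h
    exact mul_neg_of_pos_of_neg hpos (by linarith)
  · intro h
    have := (pos_iff_neg_of_mul_neg h).1 hpos
    linarith

lemma hex2 (c0 c1 c2 s0 s1 s2 : ℝ) (hc : c0 + c1 + c2 = 2 * π) (hs : s0 + s1 + s2 = π)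
    (h : Gf c0 c1 s0 s1 < 0) : 8 ≤ 9 * cos (2 * s2 - c2) - cos c2 := by
  unfold Gf at h
  have h1 := one_le_cosh ((log (sin s0) - log (sin (c0 - s0))) - (log (sin s1) - log (sin (c1 - s1))))
  have e1 : 2 * (s0 + s1) - (c0 + c1) = -(2 * s2 - c2) := by linarith
  have e2 : c0 + c1 = 2 * π - c2 := by linarith
  have e3 : cos (c0 + c1) = cos c2 := by
    rw [e2, cos_two_pi_sub]
  rw [e1, cos_neg, e3] at h
  linarith

/-- the segment statement in real variables, `c0, c1 < π` -/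
lemma FFv_seg (c0 c1 c2 s0 s1 s2 t0 t1 t2 : ℝ) (hc : c0 + c1 + c2 = 2 * π)
    (hs : s0 + s1 + s2 = π) (ht : t0 + t1 + t2 = π)
    (h0 : 0 < s0) (h0' : s0 < c0) (h1 : 0 < s1) (h1' : s1 < c1) (h2 : 0 < s2) (h2' : s2 < c2)
    (k0 : 0 < t0) (k0' : t0 < c0) (k1 : 0 < t1) (k1' : t1 < c1) (k2 : 0 < t2) (k2' : t2 < c2)
    (hc0 : c0 < π) (hc1 : c1 < π)
    (hF : FFv c0 c1 c2 s0 s1 s2 < 9 / 8) (hF' : FFv c0 c1 c2 t0 t1 t2 < 9 / 8)
    (t : ℝ) (ht0 : 0 ≤ t) (ht1 : t ≤ 1) :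
    FFv c0 c1 c2 (s0 + t * (t0 - s0)) (s1 + t * (t1 - s1)) (s2 + t * (t2 - s2)) < 9 / 8 := by
  have hseg : ∀ (c s u : ℝ), 0 < s → s < c → 0 < u → u < c → 0 < s + t * (u - s) ∧ s + t * (u - s) < c := by
    intro c s u a1 a2 a3 a4
    have e : s + t * (u - s) = (1 - t) * s + t * u := by ring
    rw [e]
    rcases eq_or_lt_of_le ht0 with rfl | htt
    · simp only [sub_zero, one_mul, zero_mul, add_zero]; exact ⟨a1, a2⟩
    · constructor
      · nlinarith [mul_pos htt a3, mul_nonneg (sub_nonneg.2 ht1) a1.le]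
      · nlinarith [mul_pos htt (sub_pos.2 a4), mul_nonneg (sub_nonneg.2 ht1) (sub_pos.2 a2).le]
  obtain ⟨m0, m0'⟩ := hseg c0 s0 t0 h0 h0' k0 k0'
  obtain ⟨m1, m1'⟩ := hseg c1 s1 t1 h1 h1' k1 k1'
  obtain ⟨m2, m2'⟩ := hseg c2 s2 t2 h2 h2' k2 k2'
  rw [Gf_neg_iff c0 c1 c2 _ _ _ hc (by linear_combination (1 - t) * hs + t * ht) m0 m0' m1 m1' m2 m2']
  have g1 := (Gf_neg_iff c0 c1 c2 s0 s1 s2 hc hs h0 h0' h1 h1' h2 h2').1 hF
  have g2 := (Gf_neg_iff c0 c1 c2 t0 t1 t2 hc ht k0 k0' k1 k1' k2 k2').1 hF'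
  have g3 := (Gf_neg_iff c1 c2 c0 s1 s2 s0 (by linarith) (by linarith) h1 h1' h2 h2' h0 h0').1 (by rw [FFv_cyc]; exact hF)
  have g4 := (Gf_neg_iff c1 c2 c0 t1 t2 t0 (by linarith) (by linarith) k1 k1' k2 k2' k0 k0').1 (by rw [FFv_cyc]; exact hF')
  have g5 := (Gf_neg_iff c2 c0 c1 s2 s0 s1 (by linarith) (by linarith) h2 h2' h0 h0' h1 h1').1
    (by rw [FFv_cyc, FFv_cyc]; exact hF)
  have g6 := (Gf_neg_iff c2 c0 c1 t2 t0 t1 (by linarith) (by linarith) k2 k2' k0 k0' k1 k1').1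
    (by rw [FFv_cyc, FFv_cyc]; exact hF')
  exact seg_real c0 c1 s0 s1 t0 t1 hc0 hc1 h0 h0' h1 h1' k0 k0' k1 k1'
    (hex2 c1 c2 c0 s1 s2 s0 (by linarith) (by linarith) g3) (hex2 c1 c2 c0 t1 t2 t0 (by linarith) (by linarith) g4)
    (hex2 c2 c0 c1 s2 s0 s1 (by linarith) (by linarith) g5) (hex2 c2 c0 c1 t2 t0 t1 (by linarith) (by linarith) g6)
    (by rw [abs_lt]; constructor <;> linarith) (by rw [abs_lt]; constructor <;> linarith) g1 g2 t ht0 ht1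

theorem FF_segment (c th th' : Fin 3 → ℝ) (hc : ∑ i, c i = 2 * π)
    (h : ∀ i, 0 < th i ∧ th i < c i) (h' : ∀ i, 0 < th' i ∧ th' i < c i)
    (hs : ∑ i, th i = π) (hs' : ∑ i, th' i = π)
    (hF : FF c th < 9 / 8) (hF' : FF c th' < 9 / 8) (t : ℝ) (ht : t ∈ Set.Icc (0:ℝ) 1) :
    FF c (fun i => th i + t * (th' i - th i)) < 9 / 8 := by
  rw [Fin.sum_univ_three] at hc hs hs'
  have e : ∀ s : Fin 3 → ℝ, FF c s = FFv (c 0) (c 1) (c 2) (s 0) (s 1) (s 2) := fun s => rfl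
  rw [e] at hF hF' ⊢
  obtain ⟨a0, a0'⟩ := h 0
  obtain ⟨a1, a1'⟩ := h 1
  obtain ⟨a2, a2'⟩ := h 2
  obtain ⟨b0, b0'⟩ := h' 0
  obtain ⟨b1, b1'⟩ := h' 1
  obtain ⟨b2, b2'⟩ := h' 2
  by_cases h0 : c 0 < π
  · by_cases h1 : c 1 < π
    · exact FFv_seg (c 0) (c 1) (c 2) _ _ _ _ _ _ hc hs hs' a0 a0' a1 a1' a2 a2' b0 b0' b1 b1' b2 b2' h0 h1 hF hF' t ht.1 ht.2
    · have h2 : c 2 < π := by push Not at h1; linarith
      have := FFv_seg (c 2) (c 0) (c 1) _ _ _ _ _ _ (by linarith) (by linarith) (by linarith) a2 a2' a0 a0' a1 a1'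
        b2 b2' b0 b0' b1 b1' h2 h0
        (by rw [FFv_cyc, FFv_cyc]; exact hF) (by rw [FFv_cyc, FFv_cyc]; exact hF') t ht.1 ht.2
      rw [FFv_cyc, FFv_cyc] at this
      exact this
  · have h1 : c 1 < π := by push Not at h0; linarith
    have h2 : c 2 < π := by push Not at h0; linarith
    have := FFv_seg (c 1) (c 2) (c 0) _ _ _ _ _ _ (by linarith) (by linarith) (by linarith) a1 a1' a2 a2' a0 a0'
        b1 b1' b2 b2' b0 b0' h1 h2
        (by rw [FFv_cyc]; exact hF) (by rw [FFv_cyc]; exact hF') t ht.1 ht.2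
    rw [FFv_cyc] at this
    exact this

theorem angle_unique : AngleUnique := by
  intro c th th' hc h h' hs hs' hF hF' lam hm
  exact rolle_part c th th' hc h h' hs hs'
    (fun t ht => FF_segment c th th' hc h h' hs hs' hF hF' t ⟨ht.1.le, ht.2.le⟩) lam hm

end Pool.Agent.MX
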